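import Pool.Agent.Helper12.GM.Stmts

set_option autoImplicit false

/-!
# (TLEN) the translation length of a hyperbolic matrix
-/

open scoped ENNReal UpperHalfPlane MatrixGroups Topology
open UpperHalfPlane Real Filter

namespace Pool.Agent.Helper12.GM

theorem tlen_alg (a b c e x y N U : ℝ) (hdet : a * e - b * c = 1) (hy : 0 < y)
    (hN : N = (c * x + e) ^ 2 + (c * y) ^ 2) (hpos : 0 < N)
    (hU : U = (a * x + b) * (c * x + e) + a * y * (c * y)) :
    1 + ((x - U / N) * (x - U / N) + (y - y / N) * (y - y / N)) / (2 * y * (y / N)) =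
      (a + e) ^ 2 / 2 - 1 + ((c * (x ^ 2 + y ^ 2) + (e - a) * x - b) / y) ^ 2 / 2 := by
  have key : (x * N - U) ^ 2 + (y * N - y * (a * e - b * c)) ^ 2 =
      N * ((c * (x ^ 2 + y ^ 2) + (e - a) * x - b) ^ 2 +
        y ^ 2 * ((a + e) ^ 2 - 4 * (a * e - b * c))) := by
    rw [hU, hN]
    ring
  rw [hdet] at key
  have e1 : (x - U / N) * (x - U / N) + (y - y / N) * (y - y / N) =
      ((x * N - U) ^ 2 + (y * N - y * 1) ^ 2) / N ^ 2 := by
    field_simp
  rw [e1, key]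
  field_simp
  ring

/-- displacement of a point -/
theorem tlen_cosh (A : SL(2, ℝ)) (z : ℍ) :
    Real.cosh (dist z (A • z)) = A.1.trace ^ 2 / 2 - 1 +
      ((A.1 1 0 * (z.re ^ 2 + z.im ^ 2) + (A.1 1 1 - A.1 0 0) * z.re - A.1 0 1) / z.im) ^ 2 / 2 := by
  have hdet : A.1 0 0 * A.1 1 1 - A.1 0 1 * A.1 1 0 = 1 := by
    rw [← Matrix.det_fin_two]
    exact A.2
  have htr : A.1.trace = A.1 0 0 + A.1 1 1 := Matrix.trace_fin_two _
  have hw : ((A • z : ℍ) : ℂ) = ((A.1 0 0 : ℂ) * z + (A.1 0 1 : ℂ)) /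
      ((A.1 1 0 : ℂ) * z + (A.1 1 1 : ℂ)) := coe_specialLinearGroup_apply A z
  have hy : 0 < z.im := z.im_pos
  generalize A.1 0 0 = a at *
  generalize A.1 0 1 = b at *
  generalize A.1 1 0 = c at *
  generalize A.1 1 1 = e at *
  -- real coordinates
  have hzr : (z : ℂ).re = z.re := rfl
  have hzi : (z : ℂ).im = z.im := rfl
  have hDre : ((c : ℂ) * z + (e : ℂ)).re = c * z.re + e := by simp
  have hDim : ((c : ℂ) * z + (e : ℂ)).im = c * z.im := by simp
  have hNre : ((a : ℂ) * z + (b : ℂ)).re = a * z.re + b := by simp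
  have hNim : ((a : ℂ) * z + (b : ℂ)).im = a * z.im := by simp
  have hN : Complex.normSq ((c : ℂ) * z + (e : ℂ)) = (c * z.re + e) ^ 2 + (c * z.im) ^ 2 := by
    rw [Complex.normSq_apply, hDre, hDim]
    ring
  have h3 : ((A • z : ℍ) : ℂ).re = (A • z : ℍ).re := rfl
  have h4 : ((A • z : ℍ) : ℂ).im = (A • z : ℍ).im := rfl
  rw [UpperHalfPlane.cosh_dist, Complex.dist_eq, ← Complex.normSq_eq_norm_sq,
    Complex.normSq_apply, Complex.sub_re, Complex.sub_im]
  generalize z.re = x at *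
  generalize z.im = y at *
  have hpos : 0 < (c * x + e) ^ 2 + (c * y) ^ 2 := by
    rcases eq_or_ne c 0 with hc | hc
    · have he : e ≠ 0 := by
        rintro rfl
        rw [hc] at hdet
        simp at hdet
      have : 0 < e ^ 2 := by positivity
      rw [hc]
      simpa using this
    · have : 0 < (c * y) ^ 2 := by positivity
      positivity
  have hwim : (A • z : ℍ).im = y / ((c * x + e) ^ 2 + (c * y) ^ 2) := by
    rw [← h4, hw, Complex.div_im, hN, hDre, hDim, hNre, hNim, ← sub_div]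
    congr 1
    linear_combination y * hdet
  have hwre : (A • z : ℍ).re = ((a * x + b) * (c * x + e) + a * y * (c * y)) /
      ((c * x + e) ^ 2 + (c * y) ^ 2) := by
    rw [← h3, hw, Complex.div_re, hN, hDre, hDim, hNre, hNim, ← add_div]
  rw [h3, h4, hwim, hwre, hzr, hzi, htr]
  exact tlen_alg a b c e x y _ _ hdet hy rfl hpos rfl

theorem tlen_lamb (A : SL(2, ℝ)) (hA : 2 < |A.1.trace|) :
    0 ≤ 2 * Real.log (lamb A) ∧
      Real.cosh (2 * Real.log (lamb A)) = A.1.trace ^ 2 / 2 - 1 := by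
  unfold lamb
  generalize A.1.trace = t at *
  have ht : 4 < t ^ 2 := by
    rw [← sq_abs]
    nlinarith
  have hs : √(t ^ 2 - 4) ^ 2 = t ^ 2 - 4 := Real.sq_sqrt (by linarith)
  have hs0 : 0 < √(t ^ 2 - 4) := Real.sqrt_pos.2 (by linarith)
  have hl : 1 < (|t| + √(t ^ 2 - 4)) / 2 := by linarith
  refine ⟨mul_nonneg (by norm_num) (Real.log_nonneg hl.le), ?_⟩
  have h1 : Real.exp (2 * Real.log ((|t| + √(t ^ 2 - 4)) / 2)) =
      ((|t| + √(t ^ 2 - 4)) / 2) ^ 2 := by
    rw [two_mul, Real.exp_add, Real.exp_log (by linarith)]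
    ring
  have h2 : Real.exp (-(2 * Real.log ((|t| + √(t ^ 2 - 4)) / 2))) =
      ((|t| - √(t ^ 2 - 4)) / 2) ^ 2 := by
    rw [Real.exp_neg, h1, ← inv_pow]
    congr 1
    rw [inv_eq_one_div, div_eq_iff (by linarith)]
    have := sq_abs t
    nlinarith
  rw [Real.cosh_eq, h1, h2]
  have := sq_abs t
  nlinarith

theorem tlen_axis (A : SL(2, ℝ)) (hA : 2 < |A.1.trace|) : ∃ z : ℍ,
    A.1 1 0 * (z.re ^ 2 + z.im ^ 2) + (A.1 1 1 - A.1 0 0) * z.re - A.1 0 1 = 0 := by
  have hdet : A.1 0 0 * A.1 1 1 - A.1 0 1 * A.1 1 0 = 1 := by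
    rw [← Matrix.det_fin_two]
    exact A.2
  rw [Matrix.trace_fin_two] at hA
  generalize A.1 0 0 = a at *
  generalize A.1 0 1 = b at *
  generalize A.1 1 0 = c at *
  generalize A.1 1 1 = e at *
  have ht : 4 < (a + e) ^ 2 := by
    rw [← sq_abs]
    nlinarith
  have key : ∀ x y : ℝ, 0 < y → c * (x ^ 2 + y ^ 2) + (e - a) * x - b = 0 →
      ∃ z : ℍ, c * (z.re ^ 2 + z.im ^ 2) + (e - a) * z.re - b = 0 :=
    fun x y hy h => ⟨UpperHalfPlane.mk ⟨x, y⟩ hy, h⟩
  rcases eq_or_ne c 0 with hc | hc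
  · subst hc
    have hne : e - a ≠ 0 := by
      intro h
      have h1 : e = a := by linarith
      rw [h1] at hdet ht
      nlinarith
    refine key (b / (e - a)) 1 one_pos ?_
    field_simp
    ring
  · refine key ((a - e) / (2 * c)) (√((a + e) ^ 2 - 4) / (2 * |c|)) ?_ ?_
    · have h1 : 0 < √((a + e) ^ 2 - 4) := Real.sqrt_pos.2 (by linarith)
      have h2 : 0 < |c| := abs_pos.2 hc
      positivity
    · have e1 : (√((a + e) ^ 2 - 4) / (2 * |c|)) ^ 2 = ((a + e) ^ 2 - 4) / (4 * c ^ 2) := by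
        rw [div_pow, Real.sq_sqrt (by linarith), mul_pow, sq_abs]
        norm_num
      rw [e1]
      field_simp
      linear_combination 16 * hdet

/-- (TLEN) -/
theorem st_TLEN : ST_TLEN := by
  intro A hA
  obtain ⟨h0, h1⟩ := tlen_lamb A hA
  have hle : ∀ z : ℍ, 2 * Real.log (lamb A) ≤ dist z (A • z) := by
    intro z
    have h2 : Real.cosh (2 * Real.log (lamb A)) ≤ Real.cosh (dist z (A • z)) := by
      rw [h1, tlen_cosh]
      have := sq_nonneg ((A.1 1 0 * (z.re ^ 2 + z.im ^ 2) + (A.1 1 1 - A.1 0 0) * z.re -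
        A.1 0 1) / z.im)
      linarith
    rw [Real.cosh_le_cosh, abs_of_nonneg h0, abs_of_nonneg dist_nonneg] at h2
    exact h2
  obtain ⟨z, hz⟩ := tlen_axis A hA
  have heq : dist z (A • z) = 2 * Real.log (lamb A) := by
    have h2 : Real.cosh (dist z (A • z)) ≤ Real.cosh (2 * Real.log (lamb A)) := by
      rw [h1, tlen_cosh, hz]
      simp
    rw [Real.cosh_le_cosh, abs_of_nonneg h0, abs_of_nonneg dist_nonneg] at h2
    exact le_antisymm h2 (hle z)
  refine le_antisymm ?_ (le_ciInf hle)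
  rw [← heq]
  exact ciInf_le ⟨0, by rintro _ ⟨w, rfl⟩; exact dist_nonneg⟩ z

end Pool.Agent.Helper12.GM
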